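import Pool.Agent.W533.K.Final1
import Pool.Agent.W533.K.All

/-!
# MP_23d2e1_gt : the distortion of a union of `k` Euclidean pieces is polylogarithmic

`D_k` is the supremum of the `ℓ₂`-distortions of all metric spaces which are the union of `k`
subsets each embedding isometrically into `ℓ₂`.  We prove `D_k ≤ C (1 + log k)^(7/2)`.
-/

namespace Pool.Agent.Results.MP_23d2e1_gt.PolylogUnion

open scoped ENNReal
open Set Pool.Agent.W533.K

universe u

/-- The Hilbert space `ℓ₂` of square summable real sequences. -/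
abbrev Ell2 : Type := lp (fun _ : ℕ => ℝ) 2

/-- There is a map `f : X → ℓ₂` of distortion at most `D`: for some scale `s > 0`,
`s d(x,y) ≤ ‖f x - f y‖ ≤ s D d(x,y)` for all `x, y`. -/
def EmbedsWithDistortion (X : Type u) [MetricSpace X] (D : ℝ) : Prop :=
  ∃ (f : X → Ell2) (s : ℝ), 0 < s ∧
    ∀ x y, s * dist x y ≤ ‖f x - f y‖ ∧ ‖f x - f y‖ ≤ s * D * dist x y

/-- `c₂(X) ∈ [1,∞]`: the infimum of the distortions of maps `X → ℓ₂`. -/
noncomputable def c2 (X : Type u) [MetricSpace X] : ℝ≥0∞ :=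
  ⨅ (D : ℝ) (_ : 1 ≤ D) (_ : EmbedsWithDistortion X D), ENNReal.ofReal D

/-- `D_k`: the supremum of `c₂(X)` over all metric spaces `X = A₁ ∪ ⋯ ∪ A_k` such that each
`A_i`, with the induced metric, embeds isometrically (with distortion `1`) into `ℓ₂`. -/
noncomputable def Dk (k : ℕ) : ℝ≥0∞ :=
  ⨆ (X : Type u) (_ : MetricSpace X) (A : Fin k → Set X) (_ : (⋃ i, A i) = univ)
    (_ : ∀ i, EmbedsWithDistortion (A i) 1), c2 X

theorem main (hCpt : Cpt.{u}) (hCoord : Coord.{u, 0}) (hSep : SepL2.{u, u}) :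
    ∃ C : ℝ, 1 ≤ C ∧ ∀ k : ℕ, 1 ≤ k →
      (∀ (X : Type u) (_ : MetricSpace X) (A : Fin k → Set X), (⋃ i, A i) = univ →
        (∀ i, EmbedsWithDistortion (A i) 1) →
        EmbedsWithDistortion X (C * (1 + Real.log k) ^ (7 / 2 : ℝ))) ∧
      Dk.{u} k ≤ ENNReal.ofReal (C * (1 + Real.log k) ^ (7 / 2 : ℝ)) := by
  obtain ⟨C, hC, H⟩ := hCpt
  have hC1 : C ≤ max C 1 := le_max_left _ _
  have hC2 : 1 ≤ max C 1 := le_max_right _ _
  refine ⟨12 * max C 1, by linarith, fun k hk => ?_⟩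
  have hk1 : (1 : ℝ) ≤ k := by exact_mod_cast hk
  have hlk : 0 ≤ Real.log k := Real.log_nonneg hk1
  have hpow : (1 : ℝ) ≤ (1 + Real.log k) ^ (7 / 2 : ℝ) :=
    Real.one_le_rpow (by linarith) (by norm_num)
  have hell : ell k ^ (7 / 2 : ℝ) ≤ 12 * (1 + Real.log k) ^ (7 / 2 : ℝ) := ell_rpow_le hk
  have key : ∀ (X : Type u) (_ : MetricSpace X) (A : Fin k → Set X), (⋃ i, A i) = univ →
        (∀ i, EmbedsWithDistortion (A i) 1) →
        EmbedsWithDistortion X (12 * max C 1 * (1 + Real.log k) ^ (7 / 2 : ℝ)) := by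
    intro X mX A hU hA
    have hpe : ∀ i (T : Finset X), PieceEmb 1 (A i ∩ (T : Set X)) := by
      intro i T
      obtain ⟨f, s, hs, hf⟩ := hA i
      exact hCoord X mX (A i) 1 s Ell2 inferInstance inferInstance f hs hf T
    have hell0 : 0 < ell k := by linarith [one_le_ell_arg hk]
    obtain ⟨K, i1, i2, i3, Φ, hΦ⟩ := H k hk X mX A 1 le_rfl
      (by have : 0 ≤ 1 / (16 * ell k) := by positivity
          linarith) hU hpe
    have hsepX : TopologicalSpace.SeparableSpace X := separable_of_pieces A hU hA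
    have hell7 : 0 ≤ ell k ^ (7 / 2 : ℝ) := Real.rpow_nonneg hell0.le _
    have hcont : Continuous Φ := by
      have : LipschitzWith (Real.toNNReal (C * ell k ^ (7 / 2 : ℝ))) Φ := by
        refine LipschitzWith.of_dist_le_mul fun x y => ?_
        rw [Real.coe_toNNReal _ (mul_nonneg hC.le hell7), dist_eq_norm]
        exact (hΦ x y).2
      exact this.continuous
    obtain ⟨Ψ, hΨ⟩ := hSep X mX K i1 i2 i3 Φ hsepX hcont
    refine ⟨Ψ, 1, one_pos, fun x y => ?_⟩
    rw [hΨ x y]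
    obtain ⟨h1, h2⟩ := hΦ x y
    refine ⟨by rw [one_mul]; exact h1, h2.trans ?_⟩
    rw [one_mul]
    refine mul_le_mul_of_nonneg_right ?_ dist_nonneg
    calc C * ell k ^ (7 / 2 : ℝ) ≤ max C 1 * (12 * (1 + Real.log k) ^ (7 / 2 : ℝ)) :=
          mul_le_mul hC1 hell hell7 (by linarith)
      _ = _ := by ring
  refine ⟨key, ?_⟩
  refine iSup_le fun X => iSup_le fun mX => iSup_le fun A => iSup_le fun hU => iSup_le fun hA => ?_
  refine iInf_le_of_le (12 * max C 1 * (1 + Real.log k) ^ (7 / 2 : ℝ)) ?_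
  refine iInf_le_of_le ?_ (iInf_le_of_le (key X mX A hU hA) le_rfl)
  nlinarith

/-- `D_k ≤ C (1 + log k)^(7/2)`: every metric space which is the union of `k` subsets embedding
isometrically into `ℓ₂` embeds into `ℓ₂` with distortion `C (1 + log k)^(7/2)`. -/
theorem result :
    ∃ C : ℝ, 1 ≤ C ∧ ∀ k : ℕ, 1 ≤ k →
      (∀ (X : Type u) (_ : MetricSpace X) (A : Fin k → Set X), (⋃ i, A i) = univ →
        (∀ i, EmbedsWithDistortion (A i) 1) →
        EmbedsWithDistortion X (C * (1 + Real.log k) ^ (7 / 2 : ℝ))) ∧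
      Dk.{u} k ≤ ENNReal.ofReal (C * (1 + Real.log k) ^ (7 / 2 : ℝ)) :=
  main cptAll Pool.Agent.W585.UK.coord Pool.Agent.W585.UK.sepL2

end Pool.Agent.Results.MP_23d2e1_gt.PolylogUnion
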